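import Mathlib
import Pool.Agent.S10129

set_option autoImplicit false

namespace Pool.Agent.Results.MP_ca9ca1_co.RichWords

variable {α : Type*} [DecidableEq α]

/-- The number of occurrences of the word `x` as a factor of the word `u`: the number of suffixes of
`u` (the empty one included) that begin with `x`. -/
def occ (x u : List α) : ℕ := u.tails.countP (fun t => decide (x <+: t))

/-- `u` and `v` are `k`-abelian equivalent: every word of length at most `k` occurs equally often in
`u` and in `v`. -/
def KEquiv (k : ℕ) (u v : List α) : Prop := ∀ x : List α, x.length ≤ k → occ x u = occ x v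

/-- `u` is a `k`-abelian palindrome: it is `k`-abelian equivalent to its reversal. -/
def KPalindrome (k : ℕ) (u : List α) : Prop := KEquiv k u u.reverse

/-- `k`-abelian equivalence as a setoid. -/
def kSetoid (α : Type*) [DecidableEq α] (k : ℕ) : Setoid (List α) where
  r := KEquiv k
  iseqv := ⟨fun _ _ _ => rfl, fun h x hx => (h x hx).symm,
    fun h₁ h₂ x hx => (h₁ x hx).trans (h₂ x hx)⟩

/-- The number of `k`-abelian classes that contain a factor of `u` which is a `k`-abelian
palindrome. -/
noncomputable def kpal (k : ℕ) (u : List α) : ℕ :=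
  Set.ncard ((fun v => Quotient.mk (kSetoid α k) v) '' {v : List α | v <:+: u ∧ KPalindrome k v})

/-- The factor `w_i w_{i+1} ⋯ w_{i+n-1}` of the infinite word `w`. -/
def factor (w : ℕ → α) (i n : ℕ) : List α := (List.range n).map (fun j => w (i + j))

/-! ### Occurrences -/

lemma occ_nil (x : List α) : occ x [] = if x = [] then 1 else 0 := by
  unfold occ
  by_cases h : x = [] <;> simp [h]

lemma occ_cons (x : List α) (a : α) (u : List α) :
    occ x (a :: u) = occ x u + if x <+: a :: u then 1 else 0 := by
  unfold occ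
  rw [List.tails_cons, List.countP_cons]
  by_cases h : x <+: a :: u <;> simp [h]

lemma occ_singleton (c : α) (u : List α) : occ [c] u = u.count c := by
  induction u with
  | nil => simp [occ_nil]
  | cons a u ih =>
    rw [occ_cons, ih, List.count_cons]
    congr 1
    by_cases h : c = a
    · subst h; simp
    · simp [List.cons_prefix_cons, h, Ne.symm h]

/-- the number of occurrences starting in the first part -/
def occIn (x : List α) : List α → List α → ℕ
  | [], _ => 0
  | a :: u, t => occIn x u t + if x <+: a :: (u ++ t) then 1 else 0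

lemma occ_append (x u t : List α) : occ x (u ++ t) = occIn x u t + occ x t := by
  induction u with
  | nil => simp [occIn]
  | cons a u ih =>
    rw [List.cons_append, occ_cons, ih, occIn]
    ring

lemma occIn_congr (x : List α) (t t' z : List α) (hz : x.length ≤ z.length + 1) (u : List α) :
    occIn x u (z ++ t) = occIn x u (z ++ t') := by
  induction u with
  | nil => rfl
  | cons a u ih =>
    rw [occIn, occIn, ih]
    congr 1
    have key : ∀ s : List α, (x <+: a :: (u ++ (z ++ s))) ↔ x <+: a :: (u ++ z) := by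
      intro s
      have e : a :: (u ++ (z ++ s)) = (a :: (u ++ z)) ++ s := by simp
      rw [e]
      constructor
      · intro h
        exact List.prefix_of_prefix_length_le h (List.prefix_append _ _) (by simp; omega)
      · intro h
        exact h.trans (List.prefix_append _ _)
    simp only [key]

/-! ### The substitution -/

section Subst

variable {r : ℕ}

/-- `k - 1` zeros. -/
def Z (r k : ℕ) : List (Fin (r + 1)) := List.replicate (k - 1) 0

/-- the image word `0^{k-1} a₁ 0^{k-1} a₂ ⋯ a_s 0^{k-1}` -/
def V (k : ℕ) : List (Fin r) → List (Fin (r + 1))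
  | [] => Z r k
  | a :: l => Z r k ++ a.succ :: V k l

lemma V_eq (k : ℕ) (l : List (Fin r)) : ∃ t, V k l = Z r k ++ t := by
  cases l with
  | nil => exact ⟨[], by simp [V]⟩
  | cons a l => exact ⟨_, rfl⟩

lemma occ_V_cons (k : ℕ) (hk : 1 ≤ k) (x : List (Fin (r + 1))) (hx : x.length ≤ k) (a : Fin r)
    (l : List (Fin r)) :
    occ x (V k (a :: l)) = occIn x (Z r k ++ [a.succ]) (Z r k) + occ x (V k l) := by
  have e : V k (a :: l) = (Z r k ++ [a.succ]) ++ V k l := by simp [V]
  rw [e, occ_append]
  obtain ⟨t, ht⟩ := V_eq k l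
  rw [ht]
  congr 1
  have := occIn_congr x t [] (Z r k) (by simp [Z]; omega) (Z r k ++ [a.succ])
  simpa using this

lemma occ_V (k : ℕ) (hk : 1 ≤ k) (x : List (Fin (r + 1))) (hx : x.length ≤ k) (l : List (Fin r)) :
    occ x (V k l) = (l.map (fun a => occIn x (Z r k ++ [a.succ]) (Z r k))).sum + occ x (Z r k) := by
  induction l with
  | nil => simp [V]
  | cons a l ih =>
    rw [occ_V_cons k hk x hx, ih, List.map_cons, List.sum_cons]
    ring

lemma V_append (k : ℕ) (l : List (Fin r)) (a : Fin r) :
    V k (l ++ [a]) = V k l ++ a.succ :: Z r k := by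
  induction l with
  | nil => simp [V]
  | cons b l ih => simp [V, ih]

lemma V_reverse (k : ℕ) (l : List (Fin r)) : (V k l).reverse = V k l.reverse := by
  induction l with
  | nil => simp [V, Z]
  | cons a l ih =>
    rw [List.reverse_cons, V_append, ← ih]
    simp [V, Z]

lemma kpal_V (k : ℕ) (hk : 1 ≤ k) (l : List (Fin r)) : KPalindrome k (V k l) := by
  intro x hx
  rw [V_reverse, occ_V k hk x hx, occ_V k hk x hx, List.map_reverse, List.sum_reverse]

lemma count_V (k : ℕ) (l : List (Fin r)) (a : Fin r) : (V k l).count a.succ = l.count a := by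
  induction l with
  | nil => simp [V, Z, List.count_replicate, (Fin.succ_ne_zero a).symm]
  | cons b l ih =>
    rw [V, List.count_append, List.count_cons, List.count_cons, ih]
    have : (Z r k).count a.succ = 0 := by
      simp [Z, List.count_replicate, (Fin.succ_ne_zero a).symm]
    rw [this]
    by_cases h : b = a
    · subst h; simp
    · have h' : b.succ ≠ a.succ := fun e => h (Fin.succ_injective _ e)
      simp [h]

/-- the image infinite word -/
def wk (k : ℕ) (w : ℕ → Fin r) : ℕ → Fin (r + 1) :=
  fun j => if j % k + 1 = k then (w (j / k)).succ else 0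

end Subst

omit [DecidableEq α] in
lemma factor_add (w : ℕ → α) (i m n : ℕ) :
    factor w i (m + n) = factor w i m ++ factor w (i + m) n := by
  unfold factor
  rw [List.range_add, List.map_append, List.map_map]
  congr 1
  apply List.map_congr_left
  intro j _
  simp [add_assoc]

lemma factor_succ_left (w : ℕ → α) (i n : ℕ) :
    factor w i (n + 1) = w i :: factor w (i + 1) n := by
  rw [add_comm, factor_add]
  simp [factor]

section

variable {r : ℕ}

lemma factor_Z (k : ℕ) (hk : 1 ≤ k) (w : ℕ → Fin r) (i : ℕ) :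
    factor (wk k w) (k * i) (k - 1) = Z r k := by
  unfold factor Z
  rw [List.eq_replicate_iff]
  refine ⟨by simp, ?_⟩
  intro b hb
  rw [List.mem_map] at hb
  obtain ⟨j, hj, rfl⟩ := hb
  rw [List.mem_range] at hj
  unfold wk
  rw [if_neg]
  rw [Nat.mul_add_mod, Nat.mod_eq_of_lt (by omega)]
  omega

lemma wk_letter (k : ℕ) (hk : 1 ≤ k) (w : ℕ → Fin r) (i : ℕ) :
    wk k w (k * i + (k - 1)) = (w i).succ := by
  unfold wk
  have h1 : (k * i + (k - 1)) % k = k - 1 := by
    rw [Nat.mul_add_mod, Nat.mod_eq_of_lt (by omega)]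
  have h2 : (k * i + (k - 1)) / k = i := by
    rw [Nat.mul_add_div (by omega), Nat.div_eq_of_lt (by omega), add_zero]
  rw [if_pos (by omega), h2]

lemma factor_V (k : ℕ) (hk : 1 ≤ k) (w : ℕ → Fin r) (s : ℕ) : ∀ i : ℕ,
    factor (wk k w) (k * i) (k * s + (k - 1)) = V k (factor w i s) := by
  induction s with
  | zero =>
    intro i
    simp only [Nat.mul_zero, Nat.zero_add]
    rw [factor_Z k hk w i]
    rfl
  | succ s ih =>
    intro i
    have e : k * (s + 1) + (k - 1) = (k - 1) + ((k * s + (k - 1)) + 1) := by
      rw [Nat.mul_succ]; omega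
    rw [e, factor_add, factor_Z k hk w i, factor_succ_left, wk_letter k hk w i]
    have e2 : k * i + (k - 1) + 1 = k * (i + 1) := by rw [Nat.mul_succ]; omega
    rw [e2, ih (i + 1), factor_succ_left]
    rfl

lemma factor_infix (w : ℕ → α) (i n a m : ℕ) (h1 : i ≤ a) (h2 : a + m ≤ i + n) :
    factor w a m <:+: factor w i n := by
  obtain ⟨c, rfl⟩ := Nat.exists_eq_add_of_le h1
  obtain ⟨d, hd⟩ := Nat.exists_eq_add_of_le h2
  have e : n = c + (m + d) := by omega
  subst e
  rw [factor_add, factor_add]
  exact ⟨factor w i c, factor w (i + c + m) d, by simp⟩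

lemma count_factor (w : ℕ → α) (i n : ℕ) (a : α) :
    (factor w i n).count a = ((Finset.Ico i (i + n)).filter (fun q => w q = a)).card := by
  induction n generalizing i with
  | zero => simp [factor]
  | succ n ih =>
    rw [factor_succ_left, List.count_cons, ih (i + 1)]
    have e : Finset.Ico i (i + (n + 1)) = insert i (Finset.Ico (i + 1) (i + 1 + n)) := by
      rw [show i + (n + 1) = i + 1 + n by ring]
      rw [Finset.insert_Ico_add_one_left_eq_Ico (by omega)]
    rw [e, Finset.filter_insert]
    by_cases h : w i = a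
    · rw [if_pos h, Finset.card_insert_of_notMem (by simp)]
      simp [h]
    · rw [if_neg h]
      simp [h]

end

omit [DecidableEq α] in
lemma finite_infix (u : List α) (P : List α → Prop) : {v : List α | v <:+: u ∧ P v}.Finite := by
  apply (List.finite_toSet u.sublists).subset
  intro v hv
  exact List.mem_sublists.mpr hv.1.sublist

/-- the letter counts of a class -/
def par {r : ℕ} (k : ℕ) (hk : 1 ≤ k) (q : Quotient (kSetoid (Fin (r + 1)) k)) : Fin r → ℕ :=
  Quotient.lift (s := kSetoid (Fin (r + 1)) k) (fun v => fun a : Fin r => occ [a.succ] v)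
    (fun u v h => by
      funext a
      exact h [a.succ] (by simpa using hk)) q

/-- **Infinite `k`-abelian rich words exist for every `k ≥ 1`**: there are a finite alphabet, an
infinite word `w` over it and a constant `C > 0` such that every factor of `w` of length `n` contains
at least `C n²` pairwise `k`-abelian inequivalent `k`-abelian palindromes. -/
theorem result (k : ℕ) (hk : 1 ≤ k) :
    ∃ (r : ℕ) (w : ℕ → Fin r) (C : ℝ), 0 < C ∧
      ∀ i n : ℕ, C * (n : ℝ) ^ 2 ≤ (kpal k (factor w i n) : ℝ) := by
  obtain ⟨r, w, C, hC, H⟩ := Pool.Agent.S10129.result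
  refine ⟨r + 1, wk k w, min C 1 / (16 * (k : ℝ) ^ 2), by positivity, ?_⟩
  intro i n
  have hkr : (1 : ℝ) ≤ k := by exact_mod_cast hk
  have hfin := (finite_infix (factor (wk k w) i n) (KPalindrome k)).image
    (fun v => Quotient.mk (kSetoid (Fin (r + 1)) k) v)
  by_cases hn : n < 4 * k
  · have h1 : 1 ≤ kpal k (factor (wk k w) i n) := by
      unfold kpal
      refine (Set.ncard_pos hfin).mpr ⟨_, [], ⟨List.nil_infix, ?_⟩, rfl⟩
      intro x _
      rfl
    have h1r : (1 : ℝ) ≤ kpal k (factor (wk k w) i n) := by exact_mod_cast h1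
    refine le_trans ?_ h1r
    have hnr : (n : ℝ) ≤ 4 * k := by exact_mod_cast hn.le
    rw [div_mul_eq_mul_div, div_le_one (by positivity)]
    have h2 : (n : ℝ) ^ 2 ≤ 16 * (k : ℝ) ^ 2 := by
      have : (0 : ℝ) ≤ n := by positivity
      nlinarith
    calc min C 1 * (n : ℝ) ^ 2 ≤ 1 * (n : ℝ) ^ 2 := by
          apply mul_le_mul_of_nonneg_right (min_le_right _ _) (by positivity)
      _ ≤ 16 * (k : ℝ) ^ 2 := by linarith
  · push Not at hn
    -- the block-aligned part of the factor
    obtain ⟨i0, hi0, hi0'⟩ : ∃ i0, i ≤ k * i0 ∧ k * i0 ≤ i + (k - 1) := by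
      refine ⟨(i + (k - 1)) / k, ?_, Nat.mul_div_le _ _⟩
      have := Nat.lt_mul_div_succ (i + (k - 1)) (show 0 < k by omega)
      rw [Nat.mul_succ] at this
      omega
    obtain ⟨m, hm, hm'⟩ : ∃ m, k * m + 2 * (k - 1) ≤ n ∧ n ≤ k * m + 3 * k := by
      refine ⟨(n - 2 * (k - 1)) / k, ?_, ?_⟩
      · have := Nat.mul_div_le (n - 2 * (k - 1)) k
        omega
      · have := Nat.lt_mul_div_succ (n - 2 * (k - 1)) (show 0 < k by omega)
        rw [Nat.mul_succ] at this
        omega
    have hfac : ∀ a s : ℕ, a + s ≤ m →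
        V k (factor w (i0 + a) s) <:+: factor (wk k w) i n := by
      intro a s has
      rw [← factor_V k hk w s (i0 + a)]
      apply factor_infix
      · calc i ≤ k * i0 := hi0
          _ ≤ k * (i0 + a) := Nat.mul_le_mul_left _ (by omega)
      · have : k * (a + s) ≤ k * m := Nat.mul_le_mul_left _ has
        have e : k * (i0 + a) + (k * s + (k - 1)) = k * i0 + k * (a + s) + (k - 1) := by ring
        rw [e]
        omega
    have hcard := H i0 m
    have hle : ((((Finset.range (m + 1)) ×ˢ (Finset.range (m + 1))).filter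
              (fun p : ℕ × ℕ => 1 ≤ p.2 ∧ p.1 + p.2 ≤ m)).image
            (fun p : ℕ × ℕ => fun a : Fin r =>
              ((Finset.Ico (i0 + p.1) (i0 + p.1 + p.2)).filter
                (fun q => w q = a)).card)).card ≤ kpal k (factor (wk k w) i n) := by
      unfold kpal
      refine le_trans ?_ (Set.ncard_image_le (f := par k hk) hfin)
      rw [← Set.ncard_coe_finset]
      apply Set.ncard_le_ncard _ (hfin.image _)
      intro f hf
      rw [Finset.mem_coe, Finset.mem_image] at hf
      obtain ⟨p, hp, rfl⟩ := hf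
      rw [Finset.mem_filter] at hp
      refine ⟨_, ⟨V k (factor w (i0 + p.1) p.2), ⟨hfac p.1 p.2 hp.2.2, kpal_V k hk _⟩, rfl⟩, ?_⟩
      funext a
      show occ [a.succ] (V k (factor w (i0 + p.1) p.2)) = _
      rw [occ_singleton, count_V, count_factor]
    have hle' : C * (m : ℝ) ^ 2 ≤ (kpal k (factor (wk k w) i n) : ℝ) :=
      le_trans hcard (by exact_mod_cast hle)
    refine le_trans ?_ hle'
    have hmr : (n : ℝ) ≤ k * m + 3 * k := by exact_mod_cast hm'
    have hnr : (4 : ℝ) * k ≤ n := by exact_mod_cast hn
    have h3 : (n : ℝ) ≤ 4 * k * m := by nlinarith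
    have h4 : (n : ℝ) ^ 2 ≤ 16 * (k : ℝ) ^ 2 * (m : ℝ) ^ 2 := by
      have : (0 : ℝ) ≤ n := by positivity
      nlinarith
    rw [div_mul_eq_mul_div, div_le_iff₀ (by positivity)]
    calc min C 1 * (n : ℝ) ^ 2 ≤ C * (n : ℝ) ^ 2 := by
          apply mul_le_mul_of_nonneg_right (min_le_left _ _) (by positivity)
      _ ≤ C * (16 * (k : ℝ) ^ 2 * (m : ℝ) ^ 2) := mul_le_mul_of_nonneg_left h4 hC.le
      _ = C * (m : ℝ) ^ 2 * (16 * (k : ℝ) ^ 2) := by ring

end Pool.Agent.Results.MP_ca9ca1_co.RichWords
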